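import Pool.Agent.Helper30.Gap.Final

/-!
# Erdős' question on the distribution function of normalised prime gaps: continuity is automatic

`A_c` is the set of `n` with `(p_{n+1} - p_n) / log n < c`.  We prove that there is an absolute
constant `K` such that the part of the question concerning continuity always holds, with `K` as a
Lipschitz constant, and that the existence of the densities at all rational `c` (or on any dense
set of `c`) is equivalent to the whole question.
-/

set_option autoImplicit false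

open Filter Topology

namespace Pool.Agent.Results.MP_3499c5_nt.ContinuityIsAutomatic

/-- The proportion of the integers `1 ≤ n ≤ N` with `(p_{n+1} - p_n) / log n < c`. -/
noncomputable def prop (N : ℕ) (c : ℝ) : ℝ :=
  ((((Finset.Icc 1 N).filter (fun n : ℕ =>
    (((Nat.nth Nat.Prime n : ℕ) : ℝ) - ((Nat.nth Nat.Prime (n - 1) : ℕ) : ℝ))
      / Real.log (n : ℝ) < c)).card : ℕ) : ℝ) / (N : ℝ)

/-- The set `A_c` has natural density `l`. -/
def HasDensity (c l : ℝ) : Prop := Tendsto (fun N : ℕ => prop N c) atTop (𝓝 l)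

/-- The statement asked for in the question (the frozen statement `S16535`, verbatim). -/
def Question : Prop :=
    ∃ f : ℝ → ℝ, ContinuousOn f (Set.Ici 0) ∧
      ∀ c : ℝ, 0 ≤ c →
        Filter.Tendsto
          (fun N : ℕ =>
            ((((Finset.Icc 1 N).filter (fun n : ℕ =>
                (((Nat.nth Nat.Prime n : ℕ) : ℝ) - ((Nat.nth Nat.Prime (n - 1) : ℕ) : ℝ))
                  / Real.log (n : ℝ) < c)).card : ℕ) : ℝ) / (N : ℝ))
          Filter.atTop (nhds (f c))

theorem result : ∃ K : ℝ, 0 < K ∧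
    -- (1) the upper density of the `n` with normalised gap in `[a, b)` is at most `K (b - a)`
    (∀ a b : ℝ, 0 ≤ a → a < b → ∀ᶠ N : ℕ in atTop, prop N b - prop N a ≤ K * (b - a)) ∧
    -- (2) the set of `c` for which the density exists is closed, the density is `K`-Lipschitz on it
    IsClosed {c : ℝ | 0 ≤ c ∧ ∃ l, HasDensity c l} ∧
    (∀ a b la lb : ℝ, 0 ≤ a → 0 ≤ b → HasDensity a la → HasDensity b lb →
      |la - lb| ≤ K * |a - b|) ∧
    -- (3) the question is equivalent to existence at rational points, resp. on any dense set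
    (Question ↔ ∀ q : ℚ, 0 ≤ q → ∃ l, HasDensity q l) ∧
    (∀ D : Set ℝ, Set.Ici 0 ⊆ closure D → (∀ c ∈ D, 0 ≤ c → ∃ l, HasDensity c l) → Question) ∧
    (¬ Question → ∃ α β : ℝ, 0 ≤ α ∧ α < β ∧ ∀ c ∈ Set.Ioo α β, ∀ l, ¬ HasDensity c l) := by
  classical
  obtain ⟨K, hK, h⟩ := Pool.Agent.Helper30.Gap.F_lip
  have hE : ∀ D : Set ℝ, (∀ d ∈ D, 0 ≤ d ∧ ∃ l, HasDensity d l) → ∀ c ∈ closure D,
      0 ≤ c ∧ ∃ l, HasDensity c l := fun D hD c hc =>
    Pool.Agent.Helper30.Gap.conv_closed hK h (U := atTop) le_rfl hD hc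
  have hlip : ∀ a b la lb : ℝ, 0 ≤ a → 0 ≤ b → HasDensity a la → HasDensity b lb →
      |la - lb| ≤ K * |a - b| := fun a b la lb ha hb hla hlb =>
    Pool.Agent.Helper30.Gap.lim_abs h (U := atTop) le_rfl ha hb hla hlb
  -- existence everywhere gives the question
  have hall : (∀ c : ℝ, 0 ≤ c → ∃ l, HasDensity c l) → Question := by
    intro hex
    choose! f hf using hex
    refine ⟨f, ?_, hf⟩
    rw [Metric.continuousOn_iff]
    intro a ha ε hε
    refine ⟨ε / K, by positivity, ?_⟩
    intro b hb hab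
    rw [Real.dist_eq] at hab ⊢
    calc |f b - f a| ≤ K * |b - a| := hlip b a _ _ hb ha (hf b hb) (hf a ha)
      _ < K * (ε / K) := by gcongr
      _ = ε := by field_simp
  have hdense : ∀ D : Set ℝ, Set.Ici 0 ⊆ closure D →
      (∀ c ∈ D, 0 ≤ c → ∃ l, HasDensity c l) → ∀ c : ℝ, 0 ≤ c → ∃ l, HasDensity c l := by
    intro D hD hex c hc
    -- approximate `c` from the right inside `(0, ∞)`
    have hc' : c ∈ closure (D ∩ Set.Ioi 0) := by
      rw [Metric.mem_closure_iff]
      intro ε hε
      have h1 : c + ε / 2 ∈ closure D := hD (by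
        rw [Set.mem_Ici]; linarith)
      obtain ⟨d, hd, hdist⟩ := Metric.mem_closure_iff.mp h1 (ε / 2) (by positivity)
      rw [Real.dist_eq, abs_sub_lt_iff] at hdist
      refine ⟨d, ⟨hd, ?_⟩, ?_⟩
      · rw [Set.mem_Ioi]; linarith
      · rw [Real.dist_eq, abs_sub_lt_iff]
        constructor <;> linarith
    exact (hE (D ∩ Set.Ioi 0) (fun d hd => ⟨(Set.mem_Ioi.mp hd.2).le, hex d hd.1
      (Set.mem_Ioi.mp hd.2).le⟩) c hc').2
  refine ⟨K, hK, h, ?_, hlip, ⟨?_, ?_⟩, ?_, ?_⟩
  · rw [← closure_subset_iff_isClosed]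
    intro c hc
    exact hE _ (fun d hd => hd) c hc
  · rintro ⟨f, -, hf⟩ q hq
    exact ⟨f q, hf q (by exact_mod_cast hq)⟩
  · intro hq
    apply hall
    intro c hc
    exact (hE {d : ℝ | ∃ q : ℚ, 0 ≤ q ∧ (q : ℝ) = d} (by
      rintro d ⟨q, hq0, rfl⟩
      exact ⟨by exact_mod_cast hq0, hq q hq0⟩) c
      (Pool.Agent.Helper30.Gap.mem_closure_rat hc)).2
  · intro D hD hex
    exact hall (hdense D hD hex)
  · intro hnot
    by_contra hcon
    push Not at hcon
    apply hnot
    apply hall
    apply hdense {c : ℝ | ∃ l, HasDensity c l}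
    · intro c hc
      rw [Set.mem_Ici] at hc
      rw [Metric.mem_closure_iff]
      intro ε hε
      obtain ⟨d, hd, l, hl⟩ := hcon c (c + ε) hc (by linarith)
      refine ⟨d, ⟨l, hl⟩, ?_⟩
      rw [Set.mem_Ioo] at hd
      rw [Real.dist_eq, abs_sub_lt_iff]
      constructor <;> linarith
    · intro c hc _
      exact hc

end Pool.Agent.Results.MP_3499c5_nt.ContinuityIsAutomatic
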