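import Pool.Agent.Helper1.LG2.GT
import Pool.Agent.Helper89.LG2.FinalExact

/-!
# Prime counts in intervals of length `lam * log n`: every value has positive density

For every `lam > 0` and every `m ≥ 0` a positive proportion (positive lower logarithmic density) of
the integers `n` have exactly `m` primes in the interval `(n, n + lam * log n]`.
-/

set_option autoImplicit false

open Finset

namespace Pool.Agent.Results.MP_3499c5_nt.ExactCounts

/-- For every real `lam > 0` and every integer `m ≥ 0`, the set of the integers `n` with exactly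
`m` primes in `(n, n + lam * log n]` has positive lower logarithmic density. -/
theorem result : ∀ (lam : ℝ) (m : ℕ), 0 < lam → ∃ δ : ℝ, 0 < δ ∧ ∃ N0 : ℕ, ∀ N : ℕ, N0 ≤ N →
    δ * Real.log N ≤ ∑ n ∈ (Icc 1 N).filter (fun n : ℕ =>
      ((Ioc n ⌊(n : ℝ) + lam * Real.log n⌋₊).filter Nat.Prime).card = m), 1 / (n : ℝ) :=
  Pool.Agent.Helper89.LG2.final_exact Pool.Agent.Helper1.LG2.gt_main

end Pool.Agent.Results.MP_3499c5_nt.ExactCounts
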