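import Pool.Agent.Helper1.LG2.GT
import Pool.Agent.Helper89.LG2.FinalGrowth

/-!
# Growth points of the distribution of the normalised prime gaps

`c` is a growth point along a sequence `s 0 < s 1 < ...` if for every `ε > 0` the set of the `n` with
`|(p_{n+1} - p_n) / log n - c| < ε` has positive upper logarithmic density along `s`. We prove that
the growth points along any sequence contain an initial interval `[0, c0]`, `c0 > 0`, and that they
have measure at least `x / k` in every interval `[t, t + R + x]`, `k` absolute. If the distribution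
function `f` of the question exists, it is not constant on any interval around a growth point.
-/

set_option autoImplicit false

open Finset Filter MeasureTheory

namespace Pool.Agent.Results.MP_3499c5_nt.GrowthPoints

/-- `c` is a growth point along the sequence `s`: for every `ε > 0` there is `δ > 0` such that for
infinitely many `j` the sum of `1/n` over the `1 ≤ n ≤ s j` with
`|(p_{n+1} - p_n) / log n - c| < ε` is at least `δ log (s j)`. -/
def IsGrowthPoint (s : ℕ → ℕ) (c : ℝ) : Prop :=
  ∀ ε : ℝ, 0 < ε → ∃ δ : ℝ, 0 < δ ∧ ∃ᶠ j : ℕ in atTop, δ * Real.log (s j) ≤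
    ∑ n ∈ (Icc 1 (s j)).filter (fun n : ℕ =>
      |((Nat.nth Nat.Prime n : ℝ) - (Nat.nth Nat.Prime (n - 1) : ℝ)) / Real.log n - c| < ε),
      1 / (n : ℝ)

/-- The proportion of the integers `1 ≤ n ≤ N` with `(p_{n+1} - p_n) / log n < c`. -/
noncomputable def prop (N : ℕ) (c : ℝ) : ℝ :=
  ((((Finset.Icc 1 N).filter (fun n : ℕ =>
    (((Nat.nth Nat.Prime n : ℕ) : ℝ) - ((Nat.nth Nat.Prime (n - 1) : ℕ) : ℝ))
      / Real.log (n : ℝ) < c)).card : ℕ) : ℝ) / (N : ℝ)

theorem result : ∃ k : ℕ, 0 < k ∧ ∀ s : ℕ → ℕ, StrictMono s →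
    -- the growth points along `s` contain an initial interval
    (∃ c0 : ℝ, 0 < c0 ∧ ∀ c : ℝ, 0 ≤ c → c ≤ c0 → IsGrowthPoint s c) ∧
    -- and have measure at least `x / k` in every interval `[t, t + R + x]`
    (∃ R : ℝ, 0 < R ∧ ∀ t x : ℝ, 0 ≤ t → 0 ≤ x →
      ENNReal.ofReal (x / k) ≤ volume {c : ℝ | t ≤ c ∧ c ≤ t + R + x ∧ IsGrowthPoint s c}) ∧
    -- where the natural densities exist, they increase strictly across a growth point
    (∀ a b c fa fb : ℝ, IsGrowthPoint s c → a < c → c < b →
      Tendsto (fun N : ℕ => prop N a) atTop (nhds fa) →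
      Tendsto (fun N : ℕ => prop N b) atTop (nhds fb) → fa < fb) := by
  obtain ⟨k, hk, h⟩ := Pool.Agent.Helper89.LG2.final_growth Pool.Agent.Helper1.LG2.gt_main
  refine ⟨k, hk, fun s hs => ⟨(h s hs).1, (h s hs).2, ?_⟩⟩
  intro a b c fa fb hc hac hcb hfa hfb
  have h1 : Pool.Agent.Helper89.LG2.Growth (map s atTop) c :=
    (Pool.Agent.Helper89.LG2.gp_iff s c).2 hc
  exact Pool.Agent.Helper89.LG2.no_flat (U := map s atTop) hs.tendsto_atTop h1 hac hcb hfa hfb

end Pool.Agent.Results.MP_3499c5_nt.GrowthPoints
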