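import Pool.Agent.Helper1.LG.Gaps
import Pool.Agent.Helper1.LG.Main

/-!
# A positive proportion of the primes is isolated on both sides

`Nat.nth Nat.Prime (n - 1)` is the `n`-th prime `p_n`. For every `C` a positive proportion (in the
sense of logarithmic lower density) of the `n` satisfies `p_{n+1} - p_n ≥ C log n` and
`p_n - p_{n-1} ≥ C log n`.
-/

set_option autoImplicit false

open Finset

namespace Pool.Agent.Results.MP_3499c5_nt.LargeGaps

theorem result : ∀ C : ℝ, 0 < C → ∃ δ : ℝ, 0 < δ ∧ ∀ᶠ N : ℕ in Filter.atTop, δ * Real.log N ≤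
    ∑ n ∈ (Icc 2 N).filter (fun n : ℕ =>
      C * Real.log n ≤ ((Nat.nth Nat.Prime n : ℕ) : ℝ) - ((Nat.nth Nat.Prime (n - 1) : ℕ) : ℝ) ∧
      C * Real.log n ≤
        ((Nat.nth Nat.Prime (n - 1) : ℕ) : ℝ) - ((Nat.nth Nat.Prime (n - 2) : ℕ) : ℝ)),
      1 / (n : ℝ) :=
  Pool.Agent.Helper1.LG.largeGaps_of Pool.Agent.Helper1.LG.mainGaps

end Pool.Agent.Results.MP_3499c5_nt.LargeGaps
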